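import Mathlib
import Pool.Agent.Helper5.R4.Path
import Pool.Agent.Helper53.RV.Bad

/-!
# One vertex: the crossed instances rarely have a triangle with sum zero
-/

set_option autoImplicit false

namespace Pool.Agent.Helper62.R4

open Finset Pool.Agent.Helper5.R4 Pool.Agent.Helper53.RV
open Pool.Agent.Helper5.RV (ind ind_nonneg ind_le_one ind_of ind_of_not ind_mono)

theorem pz_right {m N : ℕ} {a : Fin m} {b b' : Fin N} (h : pz a b = pz a b') : b = b' := by
  have h1 := congrArg Fin.val h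
  simp only [pz] at h1
  exact Fin.ext (by omega)

theorem pz_left {m N : ℕ} {a a' : Fin m} {b : Fin N} (h : pz a b = pz a' b) : a = a' := by
  have h1 := congrArg Fin.val h
  simp only [pz] at h1
  exact Fin.ext (by omega)

/-- union bound -/
theorem ind_exists_le {J K : Type} [Fintype J] [Fintype K] (Q : J → K → Prop) :
    ind (∃ j k, Q j k) ≤ ∑ j, ∑ k, ind (Q j k) := by
  classical
  by_cases h : ∃ j k, Q j k
  · rw [ind_of h]
    obtain ⟨j, k, hjk⟩ := h
    calc (1 : ℝ) = ind (Q j k) := (ind_of hjk).symm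
      _ ≤ ∑ k, ind (Q j k) := single_le_sum (f := fun k => ind (Q j k))
          (fun k _ => ind_nonneg _) (mem_univ k)
      _ ≤ ∑ j, ∑ k, ind (Q j k) := single_le_sum (f := fun j => ∑ k, ind (Q j k))
          (fun j _ => sum_nonneg fun k _ => ind_nonneg _) (mem_univ j)
  · rw [ind_of_not h]
    exact sum_nonneg fun j _ => sum_nonneg fun k _ => ind_nonneg _

/-- at most one value of a cell, a smaller factor -/
theorem one_val_le {A : Type} [Fintype A] [DecidableEq A] {m M : ℕ} (hm : m ≤ M) (a : A)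
    (P : (A → Fin M) → Prop)
    (h : ∀ f t t', P (Function.update f a t) → P (Function.update f a t') → t = t') :
    (m : ℝ) * ∑ f : A → Fin M, ind (P f) ≤ Fintype.card (A → Fin M) := by
  refine le_trans ?_ (one_val a P h)
  have h1 : 0 ≤ ∑ f : A → Fin M, ind (P f) := sum_nonneg fun f _ => ind_nonneg _
  have h2 : (m : ℝ) ≤ M := by exact_mod_cast hm
  gcongr

variable {J K : Type} [Fintype J] [DecidableEq J] [Fintype K] [DecidableEq K] {m N : ℕ}

/-- from the cells to the union -/
theorem union_le (Q : J → K → (J → Fin m) → (J → Fin m) → (J × K → Fin N) → (J × K → Fin N) →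
    (K → Fin (m + N)) → Prop)
    (h : ∀ j k, (m : ℝ) * ∑ x, ∑ x', ∑ y, ∑ y', ∑ u, ind (Q j k x x' y y' u) ≤
      Fintype.card (J → Fin m) * Fintype.card (J → Fin m) * Fintype.card (J × K → Fin N) *
        Fintype.card (J × K → Fin N) * Fintype.card (K → Fin (m + N))) :
    (m : ℝ) * T5 (fun x x' y y' u => ind (∃ j k, Q j k x x' y y' u)) ≤
      Fintype.card J * Fintype.card K * Sz J K m N := by
  have h1 : T5 (fun x x' y y' u => ind (∃ j k, Q j k x x' y y' u)) ≤
      T5 (fun x x' y y' u => ∑ j, ∑ k, ind (Q j k x x' y y' u)) :=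
    T5_mono fun x x' y y' u => ind_exists_le _
  have h2 : T5 (fun x x' y y' u => ∑ j, ∑ k, ind (Q j k x x' y y' u)) =
      ∑ j, ∑ k, T5 (fun x x' y y' u => ind (Q j k x x' y y' u)) := by
    rw [T5_sum univ (fun j x x' y y' u => ∑ k, ind (Q j k x x' y y' u))]
    refine sum_congr rfl fun j _ => ?_
    rw [T5_sum univ (fun k x x' y y' u => ind (Q j k x x' y y' u))]
  have hm : (0 : ℝ) ≤ m := by positivity
  calc (m : ℝ) * T5 (fun x x' y y' u => ind (∃ j k, Q j k x x' y y' u))
      ≤ m * ∑ j, ∑ k, T5 (fun x x' y y' u => ind (Q j k x x' y y' u)) := by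
        rw [← h2]; gcongr
    _ = ∑ j, ∑ k, m * T5 (fun x x' y y' u => ind (Q j k x x' y y' u)) := by
        rw [mul_sum]
        exact sum_congr rfl fun j _ => mul_sum _ _ _
    _ ≤ ∑ _j : J, ∑ _k : K, Sz J K m N := by
        refine sum_le_sum fun j _ => sum_le_sum fun k _ => ?_
        refine (h j k).trans (le_of_eq ?_)
        unfold Sz
        ring
    _ = Fintype.card J * Fintype.card K * Sz J K m N := by
        rw [sum_const, sum_const, card_univ, card_univ, nsmul_eq_mul, nsmul_eq_mul]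
        ring

theorem bad1 (hmN : m ≤ N) (j₁ : J) (k₁ : K) (j₂ : J) (k₂ : K) (hk : k₂ ≠ k₁) :
    (m : ℝ) * T5 (m := m) (N := N) (bad₁ j₁ k₁ j₂ k₂) ≤
      Fintype.card J * Fintype.card K * Sz J K m N := by
  refine union_le (fun j k x x' y y' u =>
    plant12 x x' y y' u j₁ k₁ j₂ k₂ k = pz (x' j) (y (j, k))) fun j k => ?_
  by_cases h2 : k = k₂
  · subst h2
    refine pos4 _ fun x x' y u => one_val_le hmN (j₂, k) _ fun f t t' h h' => ?_
    simp only [plant12, Function.update_self] at h h'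
    exact pz_right (h.trans h'.symm)
  by_cases h1 : k = k₁
  · subst h1
    refine pos1 _ fun x' y y' u => one_val_le le_rfl j₁ _ fun f t t' h h' => ?_
    simp only [plant12, Function.update_self, Function.update_of_ne hk.symm] at h h'
    exact pz_left (h.trans h'.symm)
  · refine pos5 _ fun x x' y y' => one_val_le (Nat.le_add_right m N) k _ fun f t t' h h' => ?_
    simp only [plant12, Function.update_self, Function.update_of_ne h2,
      Function.update_of_ne h1] at h h'
    exact h.trans h'.symm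

theorem bad2 (hmN : m ≤ N) (j₁ : J) (k₁ : K) (j₂ : J) (k₂ : K) (hk : k₂ ≠ k₁) :
    (m : ℝ) * T5 (m := m) (N := N) (bad₂ j₁ k₁ j₂ k₂) ≤
      Fintype.card J * Fintype.card K * Sz J K m N := by
  refine union_le (fun j k x x' y y' u =>
    plant12 x x' y y' u j₁ k₁ j₂ k₂ k = pz (x j) (y' (j, k))) fun j k => ?_
  by_cases h2 : k = k₂
  · subst h2
    refine pos2 _ fun x y y' u => one_val_le le_rfl j₂ _ fun f t t' h h' => ?_
    simp only [plant12, Function.update_self] at h h'
    exact pz_left (h.trans h'.symm)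
  by_cases h1 : k = k₁
  · subst h1
    refine pos3 _ fun x x' y' u => one_val_le hmN (j₁, k) _ fun f t t' h h' => ?_
    simp only [plant12, Function.update_self, Function.update_of_ne hk.symm] at h h'
    exact pz_right (h.trans h'.symm)
  · refine pos5 _ fun x x' y y' => one_val_le (Nat.le_add_right m N) k _ fun f t t' h h' => ?_
    simp only [plant12, Function.update_self, Function.update_of_ne h2,
      Function.update_of_ne h1] at h h'
    exact h.trans h'.symm

theorem bad_div {n : ℕ} (hn : 1 ≤ n) {T S c d : ℝ} (h : ((n ^ 4 : ℕ) : ℝ) * T ≤ c * d * S) :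
    T ≤ (c * d / (n : ℝ) ^ 4) * S := by
  have hn0 : (0 : ℝ) < (n : ℝ) ^ 4 := by
    have : (0 : ℝ) < n := by exact_mod_cast hn
    positivity
  rw [div_mul_eq_mul_div, le_div_iff₀ hn0]
  push_cast at h
  linarith

theorem bad_one {n : ℕ} (hn : 1 ≤ n) (j₁ : J) (k₁ : K) (j₂ : J) (k₂ : K) (hk : k₂ ≠ k₁) :
    T5 (m := n ^ 4) (N := n ^ 8) (bad₁ j₁ k₁ j₂ k₂) ≤
      (Fintype.card J * Fintype.card K / (n : ℝ) ^ 4) * Sz J K (n ^ 4) (n ^ 8) :=
  bad_div hn (bad1 (Nat.pow_le_pow_right hn (by norm_num)) j₁ k₁ j₂ k₂ hk)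

theorem bad_two {n : ℕ} (hn : 1 ≤ n) (j₁ : J) (k₁ : K) (j₂ : J) (k₂ : K) (hk : k₂ ≠ k₁) :
    T5 (m := n ^ 4) (N := n ^ 8) (bad₂ j₁ k₁ j₂ k₂) ≤
      (Fintype.card J * Fintype.card K / (n : ℝ) ^ 4) * Sz J K (n ^ 4) (n ^ 8) :=
  bad_div hn (bad2 (Nat.pow_le_pow_right hn (by norm_num)) j₁ k₁ j₂ k₂ hk)

end Pool.Agent.Helper62.R4
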